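import Pool.Agent.H10.SvdT

set_option autoImplicit false

namespace Pool.Agent.Results.MP_082b65_an.BothQuestions

open Pool.Agent.H10.Svd MeasureTheory Matrix

/-- MP_082b65_an, Q1 (disproved for every constant failure probability) and Q2 (true with
failure probability at most `ε ^ 2`). -/
theorem result :
    (∀ δ C p0 ε0 : ℝ, 0 < δ → 0 < C → 0 < p0 → 0 < ε0 →
      ∃ ε : ℝ, 0 < ε ∧ ε < ε0 ∧ ε < 1 ∧ ∃ (n d k : ℕ) (A : Matrix (Fin n) (Fin d) ℝ) (S : Type)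
        (_ : MeasurableSpace S) (μ : Measure S) (Om : S → Matrix (Fin d) (Fin k) ℝ),
        IsProbabilityMeasure μ ∧ IsOSI μ Om 1 (1 - ε) δ ∧
        μ.real {ω | frob (A - rsvd A (Om ω)) ≤ (1 + C * ε) * optErr A 1} < p0) ∧
    (∀ ε δ : ℝ, 0 < ε → ε ≤ 1 / 2 → δ ≤ ε ^ 2 → ∀ n d k r : ℕ, 1 ≤ r → r ≤ d →
      ∀ (A : Matrix (Fin n) (Fin d) ℝ) (S : Type) [MeasurableSpace S] (μ : Measure S)
        [IsProbabilityMeasure μ] (Om : S → Matrix (Fin d) (Fin k) ℝ),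
        IsOSI μ Om r (1 - ε) δ →
        1 / 2 ≤ μ.real {ω | frob (A - rsvd A (Om ω)) ≤ (1 + 32 * ε) * optErr A r}) :=
  ⟨main1, fun ε δ h1 h2 h3 _ _ _ _ h4 h5 A S _ μ _ Om hO =>
    main2 ε δ h1 h2 h3 h4 h5 A S μ Om hO⟩

end Pool.Agent.Results.MP_082b65_an.BothQuestions
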