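import Mathlib
import Pool.Agent.H9.MP082b65Defs
import Pool.Agent.H9.MP082b65D

set_option autoImplicit false

namespace Pool.Agent.Results.MP_082b65_an.Disproof

open Pool.Agent.H9.MP082b65 MeasureTheory Matrix

/-- For every fixed failure probability `δ` and all constants `C`, `c₀ > 0` there are a matrix `A`,
an `ε` in `(0, 1)` and an oblivious subspace injection `Om` of dimension `1` with injectivity
`1 - ε` and failure probability `δ` such that, with probability at least `1 - c₀`, the randomized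
SVD `(A Om)(A Om)⁺ A` has Frobenius error larger than `(1 + C ε)` times the best rank one error. -/
theorem result (δ : ℝ) (hδ : 0 < δ) (hδ1 : δ < 1) (C c₀ : ℝ) (hc₀ : 0 < c₀) :
    ∃ (n d k : ℕ) (ε : ℝ) (A : Matrix (Fin n) (Fin d) ℝ)
      (S : Type) (_ : MeasurableSpace S) (μ : Measure S) (Om : S → Matrix (Fin d) (Fin k) ℝ),
      0 < n ∧ 0 < d ∧ 0 < k ∧ 0 < ε ∧ ε < 1 ∧ IsProbabilityMeasure μ ∧
      IsOSI μ Om 1 (1 - ε) δ ∧
      ENNReal.ofReal (1 - c₀) ≤ μ {s | ∃ P : Matrix (Fin k) (Fin n) ℝ, IsPinv (A * Om s) P ∧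
        (1 + C * ε) * bestErr A 1 < frob (A - (A * Om s) * P * A)} :=
  main δ hδ hδ1 C c₀ hc₀

end Pool.Agent.Results.MP_082b65_an.Disproof
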