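import Pool.Agent.H10.SvdC

set_option autoImplicit false

namespace Pool.Agent.Results.MP_082b65_an.Q1Fails

open Pool.Agent.H10.Svd MeasureTheory Matrix

/-- Q1 of MP_082b65_an is disproved: for every constant failure probability `δ`, every constant
`C` and every `p0 > 0`, and already for `r = 1` and arbitrarily small `ε`, some oblivious subspace
injection with injectivity `1 - ε` satisfies `‖A - Ã‖_F ≤ (1 + C ε) ‖A - A_r‖_F` only with
probability less than `p0`. -/
theorem result : ∀ δ C p0 ε0 : ℝ, 0 < δ → 0 < C → 0 < p0 → 0 < ε0 →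
    ∃ ε : ℝ, 0 < ε ∧ ε < ε0 ∧ ε < 1 ∧ ∃ (n d k : ℕ) (A : Matrix (Fin n) (Fin d) ℝ) (S : Type)
      (_ : MeasurableSpace S) (μ : Measure S) (Om : S → Matrix (Fin d) (Fin k) ℝ),
      IsProbabilityMeasure μ ∧ IsOSI μ Om 1 (1 - ε) δ ∧
      μ.real {ω | frob (A - rsvd A (Om ω)) ≤ (1 + C * ε) * optErr A 1} < p0 :=
  main1

end Pool.Agent.Results.MP_082b65_an.Q1Fails
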